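import Pool.Agent.R698.BU.Main

/-!
# Pairs of Burch ideals whose Tor complexity exceeds the complexity of the residue field

Let `A` be the local ring of `𝔽₂[x₀,x₁,x₂,y₀,y₁,y₂]` at the origin and `R = A[X,Y]/(X²,Y²)`, a
complete intersection of codimension `2`, so that `cx_R(k) ≤ 2`.  There are Burch ideals `I`, `J` of
`R` with `tcx_R(I,J) ≥ 3`; in particular the equality `tcx_R(I,J) = cx_R(k)` fails.

Sketch.  Let `𝔞 = (X,Y)`, let `φ : A → k[s₁,s₂,t₁,t₂]` send `xᵢ ↦ sᵢt₂`, `yᵢ ↦ sᵢt₁` (`s₀ = 1`) and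
let `𝔟 = {uX+vY+wXY : t₂φ(u) = t₁φ(v)}`.  The ideals `J = 𝔪𝔞` and `I = 𝔪𝔟` are Burch.
The resolution of `𝔞` is explicit, and `Tor_n(𝔟,𝔞)` maps onto a module generated by the `s^α t₂^{n+2}`,
`|α| ≤ n+2`, whose minimal number of generators is quadratic in `n`.  The image of
`Tor_n(I,J) → Tor_n(𝔟,𝔞)` contains `𝔪²Tor_n(𝔟,𝔞)`, since multiplication by `r r'`, `r, r' ∈ 𝔪`,
factors through `Tor_n(I,J)`; so the number of generators of `Tor_n(I,J)` is also at least
quadratic in `n`.
-/

set_option autoImplicit false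

namespace Pool.Agent.Results.MP_b9b9f8_al.TorComplexityTooLarge

open CategoryTheory

/-- The minimal number of generators of a module, in `ℕ∞`. -/
noncomputable def mu (R : Type) [CommRing R] (X : Type) [AddCommGroup X] [Module R X] : ℕ∞ :=
  ⨅ (s : Finset X) (_ : Submodule.span R (s : Set X) = ⊤), (s.card : ℕ∞)

/-- `Tor_n^R(M, N)` (Mathlib's `Tor`). -/
noncomputable abbrev TorM (R : Type) [CommRing R] (n : ℕ) (M N : Type) [AddCommGroup M]
    [Module R M] [AddCommGroup N] [Module R N] : ModuleCat.{0} R :=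
  ((Tor (ModuleCat.{0} R) n).obj (ModuleCat.of R M)).obj (ModuleCat.of R N)

/-- `f n ≤ a * n ^ (d - 1)` for some constant `a` and all `n ≫ 0` (written without division). -/
def GrowthLe (f : ℕ → ℕ∞) (d : ℕ) : Prop :=
  ∃ a : ℕ, ∀ᶠ n : ℕ in Filter.atTop, f n * (n : ℕ∞) ≤ (a : ℕ∞) * (n : ℕ∞) ^ d

/-- The complexity of a sequence: the least `d` with `GrowthLe f d` (`∞` if there is none). -/
noncomputable def cplx (f : ℕ → ℕ∞) : ℕ∞ := ⨅ (d : ℕ) (_ : GrowthLe f d), (d : ℕ∞)

/-- The Tor complexity `tcx_R(M, N)`. -/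
noncomputable def tcx (R : Type) [CommRing R] (M N : Type) [AddCommGroup M]
    [Module R M] [AddCommGroup N] [Module R N] : ℕ∞ :=
  cplx (fun n => mu R (TorM R n M N))

/-- The complexity `cx_R(k)` of the residue field: the complexity of its Betti sequence
`β_n(k) = μ(Tor_n(k, k))`. -/
noncomputable def cxResidue (R : Type) [CommRing R] [IsLocalRing R] : ℕ∞ :=
  cplx (fun n => mu R (TorM R n (R ⧸ IsLocalRing.maximalIdeal R)
    (R ⧸ IsLocalRing.maximalIdeal R)))

/-- Burch ideals of a local ring: `𝔪 (I : 𝔪) ≠ 𝔪 I`. -/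
def IsBurch {R : Type} [CommRing R] [IsLocalRing R] (I : Ideal R) : Prop :=
  IsLocalRing.maximalIdeal R * (I.colon (IsLocalRing.maximalIdeal R : Set R)) ≠
    IsLocalRing.maximalIdeal R * I

/-- There are a Noetherian local ring `A` whose maximal ideal is generated by a regular sequence of
length `6` (so `A` is regular) and a Noetherian local ring `R ≅ A[X,Y]/(X²,Y²)` (the ring of dual
numbers over the ring of dual numbers over `A`) which has Burch ideals `I`, `J` with
`tcx_R(I,J) ≥ 3 > 2 ≥ cx_R(k)`. -/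
theorem result :
    ∃ (A : Type) (_ : CommRing A) (_ : IsNoetherianRing A) (_ : IsLocalRing A)
      (R : Type) (_ : CommRing R) (_ : IsNoetherianRing R) (_ : IsLocalRing R) (I J : Ideal R),
      (∃ v : Fin 6 → A, IsLocalRing.maximalIdeal A = Ideal.span (Set.range v) ∧
        ∀ (j : Fin 6) (a : A), v j * a ∈ Ideal.span (v '' {l | l < j}) →
          a ∈ Ideal.span (v '' {l | l < j})) ∧
      Nonempty (R ≃+* DualNumber (DualNumber A)) ∧
      IsBurch I ∧ IsBurch J ∧
      cxResidue R ≤ 2 ∧ 3 ≤ tcx R I J :=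
  Pool.Agent.R698.BU.final

end Pool.Agent.Results.MP_b9b9f8_al.TorComplexityTooLarge
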